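import Mathlib

/-!
# From closed walks with few repetitions to spanning trees of small degree

Jackson and Wormald: if a closed walk of `G` visits every vertex at least once and at most `k` times, then `G` has a
spanning tree of maximum degree at most `k + 1`. Proof: go through the walk backwards; a vertex which is met for the
first time is joined to its successor.
-/

set_option autoImplicit false

namespace Pool.Agent.Lib.H66T

open SimpleGraph

variable {V : Type*} [Finite V] [DecidableEq V] {G : SimpleGraph V}

/-- The edges of a walk by which its vertices are left for the last time. -/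
private lemma aux : ∀ {a b : V} (p : G.Walk a b), ∃ T : SimpleGraph V, T ≤ G ∧
    (∀ x y, T.Adj x y → x ∈ p.support) ∧ (∀ v ∈ p.support, T.Reachable v b) ∧
    ∀ v, (T.neighborSet v).ncard ≤ p.support.tail.count v + 1
  | a, _, .nil => by
    refine ⟨⊥, bot_le, fun x y h => ?_, fun v hv => ?_, fun v => ?_⟩
    · exact absurd h (by simp)
    · rw [Walk.support_nil, List.mem_singleton] at hv
      rw [hv]
    · have h0 : (⊥ : SimpleGraph V).neighborSet v = ∅ := by
        ext y
        simp
      rw [h0]
      simp
  | a, b, .cons (v := x) h p => by
    obtain ⟨T, t1, t2, t3, t4⟩ := aux p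
    by_cases ha : a ∈ p.support
    · refine ⟨T, t1, fun y z hyz => ?_, fun v hv => ?_, fun v => ?_⟩
      · rw [Walk.support_cons]
        exact List.mem_cons_of_mem _ (t2 y z hyz)
      · rw [Walk.support_cons, List.mem_cons] at hv
        rcases hv with rfl | hv
        · exact t3 _ ha
        · exact t3 v hv
      · refine (t4 v).trans ?_
        rw [Walk.support_cons, List.tail_cons]
        exact Nat.add_le_add_right ((List.tail_sublist _).count_le v) 1
    · have hx : x ∈ p.support := p.start_mem_support
      have hax : a ≠ x := fun e => ha (e ▸ hx)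
      have hTa : T.neighborSet a = ∅ := by
        ext y
        simp only [mem_neighborSet, Set.mem_empty_iff_false, iff_false]
        exact fun e => ha (t2 a y e)
      have hadj : ∀ y z, (T ⊔ edge a x).Adj y z ↔ T.Adj y z ∨ (y = a ∧ z = x) ∨ (y = x ∧ z = a) := by
        intro y z
        rw [sup_adj, edge_adj]
        constructor
        · rintro (e | ⟨e, -⟩)
          · exact Or.inl e
          · exact Or.inr e
        · rintro (e | ⟨rfl, rfl⟩ | ⟨rfl, rfl⟩)
          · exact Or.inl e
          · exact Or.inr ⟨Or.inl ⟨rfl, rfl⟩, hax⟩
          · exact Or.inr ⟨Or.inr ⟨rfl, rfl⟩, hax.symm⟩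
      refine ⟨T ⊔ edge a x, ?_, fun y z hyz => ?_, fun v hv => ?_, fun v => ?_⟩
      · intro y z e
        rcases (hadj y z).1 e with e | ⟨rfl, rfl⟩ | ⟨rfl, rfl⟩
        · exact t1 e
        · exact h
        · exact h.symm
      · rw [Walk.support_cons]
        rcases (hadj y z).1 hyz with e | ⟨rfl, rfl⟩ | ⟨rfl, rfl⟩
        · exact List.mem_cons_of_mem _ (t2 y z e)
        · exact List.mem_cons_self
        · exact List.mem_cons_of_mem _ hx
      · have hle : T ≤ T ⊔ edge a x := le_sup_left
        rw [Walk.support_cons, List.mem_cons] at hv
        rcases hv with rfl | hv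
        · exact ((hadj v x).2 (Or.inr (Or.inl ⟨rfl, rfl⟩))).reachable.trans ((t3 x hx).mono hle)
        · exact (t3 v hv).mono hle
      · rw [Walk.support_cons, List.tail_cons]
        by_cases hva : v = a
        · have h1 : (T ⊔ edge a x).neighborSet v ⊆ {x} := by
            intro z hz
            rw [mem_neighborSet] at hz
            rcases (hadj v z).1 hz with e | ⟨-, rfl⟩ | ⟨e, -⟩
            · exact absurd (hva ▸ t2 v z e) ha
            · rfl
            · exact absurd (hva.symm.trans e) hax
          refine (Set.ncard_le_ncard h1 (Set.finite_singleton x)).trans ?_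
          rw [Set.ncard_singleton]
          omega
        · by_cases hvx : v = x
          · have h1 : (T ⊔ edge a x).neighborSet v ⊆ insert a (T.neighborSet v) := by
              intro z hz
              rw [mem_neighborSet] at hz
              rcases (hadj v z).1 hz with e | ⟨e, -⟩ | ⟨-, e⟩
              · exact Set.mem_insert_of_mem _ e
              · exact absurd e hva
              · exact e ▸ Set.mem_insert _ _
            refine (Set.ncard_le_ncard h1 (Set.toFinite _)).trans ((Set.ncard_insert_le _ _).trans ?_)
            have h2 : p.support.count v = p.support.tail.count v + 1 := by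
              rw [hvx]
              conv_lhs => rw [← p.cons_tail_support]
              rw [List.count_cons_self]
            rw [h2]
            exact Nat.add_le_add_right (t4 v) 1
          · have h1 : (T ⊔ edge a x).neighborSet v ⊆ T.neighborSet v := by
              intro z hz
              rw [mem_neighborSet] at hz
              rcases (hadj v z).1 hz with e | ⟨e, -⟩ | ⟨e, -⟩
              · exact e
              · exact absurd e hva
              · exact absurd e hvx
            refine (Set.ncard_le_ncard h1 (Set.toFinite _)).trans ((t4 v).trans ?_)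
            exact Nat.add_le_add_right ((List.tail_sublist _).count_le v) 1

/-- If a closed walk of `G` visits every vertex at least once and at most `k` times, then `G` has a spanning tree of
maximum degree at most `k + 1`. -/
theorem tree_of_walk {k : ℕ} {u : V} (w : G.Walk u u)
    (hw : ∀ v, 1 ≤ w.support.tail.count v ∧ w.support.tail.count v ≤ k) :
    ∃ T ≤ G, T.IsTree ∧ ∀ v, (T.neighborSet v).ncard ≤ k + 1 := by
  obtain ⟨T, t1, -, t3, t4⟩ := aux w
  have hs : ∀ v, v ∈ w.support := fun v =>
    List.mem_of_mem_tail (List.count_pos_iff.1 (hw v).1)
  have hne : Nonempty V := ⟨u⟩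
  have hc : T.Connected := ⟨fun a b => (t3 a (hs a)).trans (t3 b (hs b)).symm⟩
  obtain ⟨S, s1, s2⟩ := hc.exists_isTree_le
  refine ⟨S, s1.trans t1, s2, fun v => ?_⟩
  have h1 : S.neighborSet v ⊆ T.neighborSet v := fun z hz => s1 hz
  exact (Set.ncard_le_ncard h1 (Set.toFinite _)).trans
    ((t4 v).trans (Nat.add_le_add_right (hw v).2 1))

/-- A closed walk of `G` which visits every vertex once or twice gives a spanning tree of maximum degree at most `3`. -/
theorem tree_three {u : V} (w : G.Walk u u)
    (hw : ∀ v, 1 ≤ w.support.tail.count v ∧ w.support.tail.count v ≤ 2) :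
    ∃ T ≤ G, T.IsTree ∧ ∀ v, (T.neighborSet v).ncard ≤ 3 :=
  tree_of_walk w hw

end Pool.Agent.Lib.H66T
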